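import Mathlib
import Pool.Agent.Q225.SP.ET
import Pool.Agent.Q225.SP.Local

/-!
# Exact triangle: readings weighted by dependence

The graph is complete tripartite with parts of size `n`, the weights are integers in
`[-n ^ 2, n ^ 2]`; the question is whether there is a triangle of weight zero. The items of the input
are, for each vertex `i` of the first part, all weights at `i`, and all weights between the second and
the third part.

A real formula (`Fml`, `Pool.Agent.Y638.RF.Defs`) is built from real constants, arbitrary real
functions of one item, and arbitrary real functions of `w` words with `n ^ c` values (words of
`c log₂ n` bits), where each word is an arbitrary function of one item, by sums, products, sign tests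
`pos` (with the values `0`, `1`), and gates `sym` of any fan-in whose value is an arbitrary real
function of the number of positive inputs. In a branching program (`BP`) every inner node tests
whether a real formula accepts.

A circuit (`Circuit`, `Pool.Agent.Q225.SP.Defs`) consists of any number of gates. Each gate is a
branching program of size at most `n ^ a` which may read the items and the bits computed by all
earlier gates (in the formulas, the bits of the earlier gates are further items). A bit may be used
any number of times. The load of a circuit is the number of readings, where the reading of the
weights at a vertex of the first part counts one, and the reading of a bit counts the number of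
vertices of the first part on whose weights this bit depends (directly, or by other gates). So
everything that is computed from the weights between the second and the third part alone (in any
number of gates) is free, and it may be read free of charge.

1. Random circuits with error probability at most `1 / 3` need
   `n ^ 3 ≤ 250000 (a + w c) E [load]`, for `n ≥ 8192` and `1 ≤ a ≤ n`.
2. If each bit that may be used depends on the weights at no more than `d` vertices of the first
   part, then the expected number of readings is at least `n ^ 3 / (250000 d (a + w c))`.
3. Exhaustive search is a circuit without shared gates with load at most `2 n ^ 3`, so for constant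
   `a`, `w` and `c` the first bound is optimal up to a constant factor.

The starting results in this folder are about circuits over the full binary basis whose shared gates
depend on few vertices (`LocalSharing`), and about nondeterministic programs over real formulas of
the single weights, without shared bits (`RealNetworks`).

Proof. (1) The weights at a vertex of the first part can ask for about `n ^ 2 log₂ n / 128` bits of
the weights between the other parts, by only `n ^ 4 / 64` different values (`ETAsks.lean`): in the
row of `k` each of about `n / 128` labels gets a word of about `log₂ n` bits, and its number is
written at the place given by its word; collisions make at most a fraction `1 / 64` of the bits wrong.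
(2) We count the functions of the weights at a vertex which arise at the gates which depend on them,
when the other items are fixed: for given functions at the earlier gates, a gate is a branching
program in one item (these weights with the functions of the earlier dependent gates) and in
independent parameters (everything else, also the bits of the gates which do not depend on these
weights), which has `2 ^ O (r (a + w c) log n)` functions, if `r` readings depend on these weights
(Warren's bound, `Pool.Agent.Y638.RF.Prog`). The sum of these numbers `r` over all gates and all
vertices is the load.
-/

set_option autoImplicit false

namespace Pool.Agent.Results.MP_62fbe0_lc.DependenceWeightedReads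

open Pool.Agent.TH697.Form (IsProb)
open Pool.Agent.TH697.Row (ApproximatesOn)
open Pool.Agent.TH697.Form.ET (Item InRange zeroTri)
open Pool.Agent.Q225.SP

theorem result :
    (∀ n a c w : ℕ, 8192 ≤ n → 1 ≤ a → a ≤ n → 1 ≤ w →
      ∀ (Ω : Type) [Fintype Ω] (μ : Ω → ℝ), IsProb μ →
        ∀ C : Ω → Circuit (Option (Fin n)) (Item n) w (n ^ c), (∀ ω, (C ω).SizeLE (n ^ a)) →
          ApproximatesOn μ (fun ω => (C ω).eval) (InRange n (n ^ 2)) (zeroTri n) →
          (n : ℝ) ^ 3 ≤ 250000 * (a + w * c) * mean μ (fun ω => (C ω).load (somes n))) ∧
    (∀ n a c w d : ℕ, 8192 ≤ n → 1 ≤ a → a ≤ n → 1 ≤ w → 1 ≤ d →
      ∀ (Ω : Type) [Fintype Ω] (μ : Ω → ℝ), IsProb μ →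
        ∀ C : Ω → Circuit (Option (Fin n)) (Item n) w (n ^ c), (∀ ω, (C ω).SizeLE (n ^ a)) →
          (∀ ω, (C ω).IsLocal (somes n) d) →
          ApproximatesOn μ (fun ω => (C ω).eval) (InRange n (n ^ 2)) (zeroTri n) →
          (n : ℝ) ^ 3 ≤ 250000 * (a + w * c) * (d * mean μ (fun ω => (C ω).reads))) ∧
    (∀ n w q : ℕ, ∃ C : Circuit (Option (Fin n)) (Item n) w q, C.shared = 0 ∧
      C.load (somes n) ≤ 2 * n ^ 3 ∧ ∀ x, C.eval x = zeroTri n x) := by
  refine ⟨fun _ _ _ _ hn ha han hw _ _ μ hμ C hC hF => et_bound hn ha han hw μ hμ C hC hF,
    fun n a c w d hn ha han hw hd _ _ μ hμ C hC hL hF => ?_, fun n w q => et_upper n w q⟩
  exact local_bound μ hμ (somes n) d hd C hL (by positivity)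
    (et_bound hn ha han hw μ hμ C hC hF)

end Pool.Agent.Results.MP_62fbe0_lc.DependenceWeightedReads
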