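import Mathlib
import Pool.Agent.Q225.NN.Good
import Pool.Agent.Q225.NN.Upper

/-!
# Exact triangle: neural networks

The graph is complete tripartite with parts of size `n`, the weights are integers of absolute value at
most `n + 1`; the question is whether there is a triangle of weight zero. The items of the input are
the `3 n ^ 2` single weights.

A neural network (`Net ι D G k p d h`, `Pool.Agent.Q225.NN.Defs`) has a finite set `G` of neurons on
`h` levels. A neuron has `k` channels; on each channel it gets a linear form, with arbitrary real
weights and of any fan-in, of the values of the neurons of lower levels, plus arbitrary real functions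
of each single item. Its value is a piecewise polynomial function of the `k` numbers on its channels:
the signs of `p` polynomials are determined, and then a polynomial, which depends on these signs, is
evaluated; all degrees are at most `d`. So threshold gates (with values `0` and `1`), rectified linear
units, maxima, comparisons and products, of linear forms of any number of values, are allowed. The
network accepts if the value of the output neuron is positive; the margin may be arbitrarily small.
There is no restriction on the use of the value of a neuron by other neurons. The load (`load`) is the
number of pairs of a neuron and of an edge between the first and the second part on which the value of the neuron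
depends, directly or by other neurons. The neurons which depend only on weights of
other edges are free.

Result: random networks with error probability at most `1 / 3` and `|G| (p + 1) d ^ h ≤ n ^ a` need
`n ^ 3 / (37 a log₂ n) ≤ (h + 1) k E [load] + n ^ 2`, for `n ≥ 100` and `a ≥ 1`; if the pieces are
constant (`Steps`), for instance for threshold gates, `n ^ 3 / (37 a log₂ n) ≤ k E [load] + n ^ 2` holds
for any number of levels. Conversely, a network with `n ^ 3 + 1` neurons (one for each triangle, which
tests whether its weight is zero, and a threshold gate), with `k = p = d = 1`, `h = 2` and constant
pieces, has a load of at most `n ^ 3 + n ^ 2` and answers the question for all integer weights. So the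
exponent three is optimal.

Proof. The weight of the edge `(i, j)` can ask for `n` bits of the weights of the edges `(j, k)`. If the other items are fixed, then the value of the
network as a function of `w_ij` is determined by the `k` numbers which the other neurons and items
contribute to each neuron that depends on `w_ij`. So if `r` neurons depend on `w_ij`, the functions
of `w_ij` which occur are given by `k r` real parameters, and the signs of all tests are those of
polynomials of degree at most `d ^ h` in these parameters, which are determined level by level; by
Warren's theorem there are at most `M ^ ((h + 1) k r + 1)` functions, `log₂ M = O (a log₂ n)`, and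
`M ^ (k r + 1)` if the pieces are constant (then the tests have degree `d` for each choice of the values
of the neurons on which they depend, and a network with threshold gates is determined by them).
-/

set_option autoImplicit false

namespace Pool.Agent.Results.MP_62fbe0_lc.NeuralNetworks

open Pool.Agent.TH697.Form (IsProb)
open Pool.Agent.TH697.Row (ApproximatesOn)
open Pool.Agent.Y638.RF.ZT (InRange zeroTri first asks_first card_first)
open Pool.Agent.Q225.LS (good_zt)
open Pool.Agent.Q225.NN

theorem result : (∀ n a : ℕ, 100 ≤ n → 1 ≤ a →
    ∀ (G : Type) [Fintype G] (k p d h : ℕ) (Ω : Type) [Fintype Ω] (μ : Ω → ℝ), IsProb μ →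
      ∀ N : Ω → Net (Fin 3 × Fin n × Fin n) (fun _ => ℤ) G k p d h,
      ApproximatesOn μ (fun ω => (N ω).accepts) InRange zeroTri →
        (1 ≤ d → Fintype.card G * (p + 1) * d ^ h ≤ n ^ a →
          (n : ℝ) ^ 3 / (37 * a * Real.logb 2 n) ≤
            (h + 1) * k * mean μ (fun ω => (N ω).load (first n)) + n ^ 2) ∧
        ((∀ ω, (N ω).Steps) → Fintype.card G * (p + 1) * d ≤ n ^ a →
          (n : ℝ) ^ 3 / (37 * a * Real.logb 2 n) ≤
            k * mean μ (fun ω => (N ω).load (first n)) + n ^ 2)) ∧
    ∀ n : ℕ, ∃ N : Net (Fin 3 × Fin n × Fin n) (fun _ => ℤ)
      ((Fin n × Fin n × Fin n) ⊕ Unit) 1 1 1 2, N.Steps ∧ N.load (first n) ≤ n ^ 3 + n ^ 2 ∧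
        ∀ x, N.accepts x = zeroTri x := by
  refine ⟨fun n a hn ha G _ k p d h Ω _ μ hμ N hF => ?_, zt_upper⟩
  have hg := good_zt hn ha
  have hk := asks_first (n := n)
  have e : (((first n).card : ℕ) : ℝ) = (n : ℝ) ^ 2 := by
    rw [card_first]
    push_cast
    rfl
  refine ⟨fun hd hL => ?_, fun hN hL => ?_⟩
  · have h := net_bound hg hk hd hL μ hμ N hF
    rwa [e] at h
  · have h := steps_bound hg hk hL μ hμ N hN hF
    rwa [e] at h

end Pool.Agent.Results.MP_62fbe0_lc.NeuralNetworks
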