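import Mathlib
import Pool.Agent.Q225.SD.ZT

/-!
# Exact triangle: circuits of formulas with determinants, with shared bits

The graph is complete tripartite with parts of size `n`, the weights are integers of absolute value at
most `n + 1`; the question is whether there is a triangle of weight zero. The items of the input are
the `3 n ^ 2` single weights.

A formula (`Fml`, `Pool.Agent.Y649.DG.Defs`) is built from real constants, arbitrary real functions of
one item, and arbitrary real functions of `w` words with `n ^ c` values, where each word is an arbitrary
function of one item, by sign tests `pos` (with the values `0`, `1`), gates `sym` of any fan-in whose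
value is an arbitrary real function of the number of positive inputs, determinants `det` of real
matrices of any order whose entries are formulas (sums and products are determinants of order two),
and tests `reg`: is the matrix over an arbitrary field, of any order, whose entry `(a, b)` is `c' a b`
or `c a b`, according to whether the formula `(a, b)` is positive or not, regular?

A circuit (`Circuit`, `Pool.Agent.Q225.SD.Defs`) consists of any number of gates. Each gate is a
formula of size at most `n ^ a` which may read the items and the bits computed by all earlier gates
(in the formulas, the bits of the earlier gates are further items); its bit tells whether its value is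
positive, and may be used any number of times. For an item `i`, let `squares i` be the sum over all
gates of the square of the number of the leaves which see something that depends on item `i` (the item
itself, or the bit of a gate which depends on it, directly or by other gates). The load is the sum of
the square roots of these numbers over the `n ^ 2` weights between
the first and the second part.

1. Random circuits with error probability at most `1 / 3` need
   `n ^ 5 ≤ 8000000 (a + w c) log₂ n E [load] ^ 2`, for `n ≥ 100` and `a ≥ 1`: the load is at least of
   the order `n ^ (5 / 2)`, for inputs of `3 n ^ 2` weights. Everything that is computed from the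
   other weights (between the first and the third, and between the second and the third part) alone is
   free.
2. If each gate has size at most `s`, and each bit that may be used depends on at most `d` weights
   between the first and the second part, then `n ^ 3 ≤ 8000000 (a + w c) log₂ n s w d E [size]`; so
   small local gates need nearly cubic size, as the hypothesis says.
3. Nondeterministic networks which are guarded by real formulas (`Net`; for instance branching
   programs) are circuits without shared gates, and their load is at most `w` times their size.

The starting result `RealNetworks` in this folder is about networks which are guarded by real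
formulas, without determinants and without shared bits.

Proof. The weight of the edge `(i, j)` between the first and the second part can ask for the
bits which tell for which `k` the weight of `(j, k)` is `-(k + 1)` (`n` bits). We count the functions of this weight which
arise at the gates which depend on it, when the other items are fixed: for given functions at the
earlier gates, a gate is a formula in one item (this item with the functions of the earlier dependent
gates) and in independent parameters (everything else, also the bits of the gates which do not depend
on this item), and such a formula has `2 ^ O (r ^ 2 (a + w c) log n)` functions, if `r` leaves depend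
on the item: the other parts of the formula enter a determinant with `r` live entries only through
`O (r ^ 2)` numbers (Schur complement; `Pool.Agent.Y649.DG.sub`, from the starting library, which rests
on the theorems of Warren and of Rónyai, Babai and Ganapathy on sign and zero patterns).
-/

set_option autoImplicit false

namespace Pool.Agent.Results.MP_62fbe0_lc.SharedDeterminants

open Pool.Agent.TH697.Form (IsProb)
open Pool.Agent.TH697.Row (ApproximatesOn)
open Pool.Agent.Y638.RF (Net)
open Pool.Agent.Y638.RF.ZT (InRange zeroTri first)
open Pool.Agent.Q225.SD

theorem result :
    (∀ n a c w : ℕ, 100 ≤ n → 1 ≤ a → 1 ≤ w →
      ∀ (Ω : Type) [Fintype Ω] (μ : Ω → ℝ), IsProb μ →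
        ∀ C : Ω → Circuit (Fin 3 × Fin n × Fin n) (fun _ => ℤ) w (n ^ c),
          (∀ ω, (C ω).SizeLE (n ^ a)) →
          ApproximatesOn μ (fun ω => (C ω).eval) InRange zeroTri →
          (n : ℝ) ^ 5 ≤ 8000000 * ((a + w * c) * Real.logb 2 n) *
            mean μ (fun ω => (C ω).load (first n)) ^ 2) ∧
    (∀ n a c w s d : ℕ, 100 ≤ n → 1 ≤ a → 1 ≤ w → 1 ≤ d → s ≤ n ^ a →
      ∀ (Ω : Type) [Fintype Ω] (μ : Ω → ℝ), IsProb μ →
        ∀ C : Ω → Circuit (Fin 3 × Fin n × Fin n) (fun _ => ℤ) w (n ^ c),
          (∀ ω, (C ω).SizeLE s) → (∀ ω, (C ω).IsLocal (first n) d) →
          ApproximatesOn μ (fun ω => (C ω).eval) InRange zeroTri →
          (n : ℝ) ^ 3 ≤ 8000000 * ((a + w * c) * Real.logb 2 n) *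
            (s * w * d * mean μ (fun ω => ((C ω).size : ℝ)))) ∧
    (∀ (ι : Type) (D : ι → Type) [DecidableEq ι] (I : Finset ι) (w q : ℕ) (N : Net ι D w q),
      1 ≤ w → ∃ C : Circuit ι D w q, C.shared = 0 ∧ C.size ≤ N.size ∧ C.load I ≤ w * N.size ∧
        ∀ x, C.eval x = N.eval x) :=
  ⟨fun _ _ _ _ hn ha hw _ _ μ hμ C hC hF => zt_bound hn ha hw μ hμ C hC hF,
    fun _ _ _ _ _ _ hn ha hw hd hs _ _ μ hμ C hC hL hF =>
      zt_local hn ha hw hd hs μ hμ C hC hL hF,
    fun _ _ _ I _ _ N hw => exists_of_net I N hw⟩

end Pool.Agent.Results.MP_62fbe0_lc.SharedDeterminants
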