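import Mathlib
import Pool.Agent.Q225.LS.Good

/-!
# Exact triangle: few qubits

The graph is complete tripartite with parts of size `n`, the weights are integers of absolute value at
most `n + 1`; the question is whether there is a triangle of weight zero. The items of the input are
the `3 n ^ 2` single weights. Only the reads of weights between the first and the second part are
counted; everything may be known about the other weights at any time.

The memory of a machine (`Machine`, `Pool.Agent.Q225.LS.Defs`) is a vector with the coordinates `S`
over a field. In each step one item is read, and the vector is multiplied by a matrix which is an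
arbitrary function of this item; the order of the reads is fixed in advance (but it may be random, since
we consider random machines). At the end a linear function of the vector is computed; the machine
accepts if its value is positive (`positive`, over the real numbers), or if it is not zero
(`nonzero`, over any field). So there are no restrictions on the numbers in the memory and on the
computation, and the gap between acceptance and rejection may be arbitrarily small. Such machines
contain all oblivious algorithms with `log₂ |S|` bits of memory, deterministic, randomised with
unbounded error, nondeterministic or counting modulo a prime. In a quantum machine (`Quantum`) the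
memory is a vector in `ℂ ^ S` (`k` qubits: `|S| = 2 ^ k`), the matrices are arbitrary complex matrices
(so postselection is allowed), and the machine accepts if the last state is more than half in the
accepting basis states.

Result: random machines with error probability at most `1 / 3` and at most `n ^ a` counted reads need
`n ^ 3 / (37 a log₂ n) ≤ |S| ^ 2 (E [reads] + n ^ 2)`, for `n ≥ 100` and `a ≥ 1`, and quantum
machines need `n ^ 3 / (37 a log₂ n) ≤ 16 |S| ^ 4 (E [reads] + n ^ 2)`. So the Exact Triangle
problem needs `n ^ (3 - o (1))` reads with `o (log n)` qubits.

Proof. The weight of the edge `(i, j)` can ask for `n` bits of the weights of the edges `(j, k)`. If the other items are fixed and `w_ij` is read `r` times, then the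
value of the machine is a polynomial of degree `r + 1` in `(r + 1) |S| ^ 2` parameters, the entries of
the matrices of the steps between these reads. So `w_ij` has at most `N ^ ((r + 1) |S| ^ 2)` functions,
`log₂ N = O (a log₂ n)`, by the theorems of Warren (signs) and of Rónyai, Babai and Ganapathy (zero
patterns). The state of a quantum machine is replaced by its tensor square over the real numbers.
-/

set_option autoImplicit false

namespace Pool.Agent.Results.MP_62fbe0_lc.VectorMemory

open Pool.Agent.TH697.Form (IsProb)
open Pool.Agent.TH697.Row (ApproximatesOn)
open Pool.Agent.Y638.RF.ZT (InRange zeroTri first asks_first card_first)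
open Pool.Agent.Q225.LS

theorem result : ∀ n a : ℕ, 100 ≤ n → 1 ≤ a →
    ∀ (S : Type) [Fintype S] [DecidableEq S] (Ω : Type) [Fintype Ω] (μ : Ω → ℝ), IsProb μ →
      (∀ C : Ω → Machine (Fin 3 × Fin n × Fin n) (fun _ => ℤ) S ℝ,
        (∀ ω, (C ω).reads (first n) ≤ n ^ a) →
        ApproximatesOn μ (fun ω => (C ω).positive) InRange zeroTri →
        (n : ℝ) ^ 3 / (37 * a * Real.logb 2 n) ≤
          (Fintype.card S : ℝ) ^ 2 * (mean μ (fun ω => (C ω).reads (first n)) + n ^ 2)) ∧
      (∀ (F : Type) [Field F] (C : Ω → Machine (Fin 3 × Fin n × Fin n) (fun _ => ℤ) S F),
        (∀ ω, (C ω).reads (first n) ≤ n ^ a) →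
        ApproximatesOn μ (fun ω => (C ω).nonzero) InRange zeroTri →
        (n : ℝ) ^ 3 / (37 * a * Real.logb 2 n) ≤
          (Fintype.card S : ℝ) ^ 2 * (mean μ (fun ω => (C ω).reads (first n)) + n ^ 2)) ∧
      (∀ C : Ω → Quantum (Fin 3 × Fin n × Fin n) (fun _ => ℤ) S,
        (∀ ω, (C ω).reads (first n) ≤ n ^ a) →
        ApproximatesOn μ (fun ω => (C ω).eval) InRange zeroTri →
        (n : ℝ) ^ 3 / (37 * a * Real.logb 2 n) ≤
          16 * (Fintype.card S : ℝ) ^ 4 * (mean μ (fun ω => (C ω).reads (first n)) + n ^ 2)) := by
  intro n a hn ha S _ _ Ω _ μ hμ
  have hg := good_zt hn ha
  have hk := asks_first (n := n)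
  have e : (((first n).card : ℕ) : ℝ) = (n : ℝ) ^ 2 := by
    rw [card_first]
    push_cast
    rfl
  refine ⟨fun C hL hF => ?_, fun F _ C hL hF => ?_, fun C hL hF => ?_⟩
  · have h := positive_bound hg hk μ hμ C hL hF
    rwa [e] at h
  · have h := nonzero_bound hg hk μ hμ C hL hF
    rwa [e] at h
  · have h := quantum_bound hg hk μ hμ C hL hF
    rwa [e] at h

end Pool.Agent.Results.MP_62fbe0_lc.VectorMemory
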